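import Pool.Agent.Work.MP_e24068_el.FinalB

set_option autoImplicit false

namespace Pool.Agent.Results.MP_e24068_lc.BinaryCommaFree

open Pool.Agent.Work.MP_e24068_lc Pool.Agent.Work.TMLib Pool.FE

/-- FACT is NP-hard for comma-free codes over a two-letter alphabet, even for those with at most
`14` distinct word lengths. -/
theorem result :
    ∀ L : Set (List Bool), InNP L →
      ∃ f : List Bool → Inst, PolyTime id Inst.enc f ∧
        ∀ w, ((f w).1 = 2 ∧ (f w).2 ≠ [] ∧ CommaFree (f w).lang ∧
            ((f w).2.map List.length).toFinset.card ≤ 14) ∧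
          (w ∈ L ↔ HasFactorization (f w).lang) :=
  Pool.FE.final_CFB

end Pool.Agent.Results.MP_e24068_lc.BinaryCommaFree
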