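import Pool.Agent.Work.MP_e24068_el.FinalB

set_option autoImplicit false

namespace Pool.Agent.Results.MP_e24068_lc.BinaryNineLengths

open Pool.Agent.Work.MP_e24068_lc Pool.Agent.Work.TMLib

/-- FACT is NP-hard over a two-letter alphabet, even for languages whose word lengths are among
`0, m, 2m, ..., 8m` for some `m`, so for languages with at most `9` distinct word lengths. -/
theorem result :
    ∀ L : Set (List Bool), InNP L →
      ∃ f : List Bool → Inst, PolyTime id Inst.enc f ∧
        ∀ w, ((f w).1 = 2 ∧ (f w).2 ≠ [] ∧
            (∃ m, ∀ v ∈ (f w).2, ∃ i ≤ 8, v.length = i * m) ∧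
            ((f w).2.map List.length).toFinset.card ≤ 9) ∧
          (w ∈ L ↔ HasFactorization (f w).lang) :=
  Pool.FE.final_NP9

end Pool.Agent.Results.MP_e24068_lc.BinaryNineLengths
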