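import Pool.Agent.Work.MP_e24068_el.Final8

set_option autoImplicit false

namespace Pool.Agent.Results.MP_e24068_lc.EightLengthsPoly

open Pool.Agent.Work.MP_e24068_lc Pool.Agent.Work.TMLib

/-- FACT is solvable in polynomial time on the nonempty finite languages with at most `8`
distinct word lengths. -/
theorem result :
    ∃ f : Inst → Bool, PolyTime Inst.enc (fun b : Bool => [b]) f ∧
      ∀ I : Inst, I.2 ≠ [] → (I.2.map List.length).toFinset.card ≤ 8 →
        (f I = true ↔ HasFactorization I.lang) :=
  Pool.FE.final_P8

end Pool.Agent.Results.MP_e24068_lc.EightLengthsPoly
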