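import Pool.Agent.Work.MP_e24068_dich.FinalH

set_option autoImplicit false

namespace Pool.Agent.Results.MP_e24068_lc.LengthEightNPHard

open Pool.Agent.Work.MP_e24068_lc Pool.Agent.Work.TMLib

/-- FACT is NP-hard, even when all words of the input have length at most `8`: every language in
NP has a polynomial-time many-one reduction to the existence of a nontrivial factorization, whose
values are nonempty finite languages all of whose words have length at most `8`. -/
theorem result :
    ∀ L : Set (List Bool), InNP L →
      ∃ f : List Bool → Inst, PolyTime id Inst.enc f ∧
        ∀ w, ((f w).2 ≠ [] ∧ ∀ v ∈ (f w).2, v.length ≤ 8) ∧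
          (w ∈ L ↔ HasFactorization (f w).lang) :=
  Pool.FD.final_NP

end Pool.Agent.Results.MP_e24068_lc.LengthEightNPHard
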